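import Pool.Agent.R30B.Stmts

/-!
# Squad R30B (MP_3953f1_lc), rows COV, RUN: covering theorem, runs of ones
-/

set_option autoImplicit false

namespace Pool.Agent.R30B.H60

open Pool.Agent.R30B Pool.Agent.H21R30

/-- the right half plane of a Rule 30 diagram -/
theorem dia_cell (c : ℤ → Bool) (i : ℤ) (s q : ℕ) :
    Dia (fun t k => cell c (s + t + q) (i + (k : ℕ))) := by
  intro t k
  have e := cell_succ c (s + t + q) (i + ((k + 1 : ℕ) : ℤ))
  have e1 : i + ((k + 1 : ℕ) : ℤ) - 1 = i + (k : ℕ) := by push_cast; ring
  have e2 : i + ((k + 1 : ℕ) : ℤ) + 1 = i + ((k + 2 : ℕ) : ℤ) := by push_cast; ring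
  rw [e1, e2] at e
  have e3 : s + (t + 1) + q = s + t + q + 1 := by omega
  change cell c (s + (t + 1) + q) (i + ((k + 1 : ℕ) : ℤ)) = _
  rw [e3, e]

/-- row COV -/
theorem cov (hA : AgrStmt) : CovStmt := by
  intro c l h0 h1 i p T₀ T M hp hT hl hper hcov
  rcases Nat.lt_or_ge T M with hM | hM
  · have hadj := adjacent c l h0 h1 (i - 1) T p (M - 1) hp (by linarith) (by
      intro t ht1 ht2
      have e : i - 1 + 1 = i := by ring
      have hi := hper t (by omega) (by omega)
      have hi1 := hper (t + 1) (by omega) (by omega)
      rw [e]
      refine ⟨?_, hi⟩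
      rw [cell_left, cell_left, hi, show t + p + 1 = t + 1 + p by omega, hi1]
      cases hb : cell c t i with
      | true => rfl
      | false =>
        obtain ⟨s, n, g1, g2, g3, g4, g5⟩ := hcov t ht1 (by omega) hb
        have hag := hA (fun t k => cell c (s + t + 0) (i + (k : ℕ)))
          (fun t k => cell c (s + t + p) (i + (k : ℕ))) (dia_cell c i s 0) (dia_cell c i s p)
          n ((n - 2) / 7) (t - s) (by omega) (by omega)
          (by
            intro t' ht'
            have := g5 (s + t') (by omega) (by omega)
            simpa using this)
          (by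
            intro t' ht'
            have a := g5 (s + t') (by omega) (by omega)
            have b := hper (s + t') (by omega) (by omega)
            rw [a] at b
            simpa using b)
          (by
            intro t' ht'
            have b := hper (s + t') (by omega) (by omega)
            simpa using b.symm)
          (t - s) (by omega) le_rfl (by omega)
        have e1 : s + (t - s) = t := by omega
        simp only [e1, Nat.add_zero, Nat.cast_one] at hag
        rw [hag])
    have hM1 : ((M - 1 : ℕ) : ℤ) = M - 1 := by
      rw [Nat.cast_sub (by omega)]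
      norm_num
    rw [hM1] at hadj
    linarith
  · have : (M : ℤ) ≤ T := by exact_mod_cast hM
    linarith

/-- row RUN -/
theorem run (hC : CovStmt) : RunStmt := by
  intro c l h0 h1 i p N s n hp hper hN hn hrun
  by_contra hcon
  push Not at hcon
  -- multiples of the period
  have hmul : ∀ k t, N ≤ t → cell c (t + k * p) i = cell c t i := by
    intro k
    induction k with
    | zero => intro t _; simp
    | succ k ih =>
      intro t ht
      have e : t + (k + 1) * p = (t + k * p) + p := by ring
      rw [e, hper _ (by have := Nat.zero_le (k * p); omega), ih t ht]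
  set T : ℕ := s + (l - i).natAbs + 1 with hTd
  obtain ⟨M, hM⟩ : ∃ M : ℕ, i - l + 2 * T + p < M := ⟨(i - l + 2 * T + p).natAbs + 1, by omega⟩
  have := hC c l h0 h1 i p s T M hp (by omega) (by omega) (fun t ht _ => hper t (by omega)) (by
    intro t ht1 ht2 hb
    -- the period which contains `t`
    have hdm := Nat.div_add_mod (t - s) p
    have hlt := Nat.mod_lt (t - s) hp
    set k := (t - s) / p with hk
    set ρ := (t - s) % p with hρ
    have ht : t = s + ρ + k * p := by
      have : p * k = k * p := mul_comm _ _
      omega
    have hρn : n ≤ ρ := by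
      by_contra hh
      push Not at hh
      have a := hrun (s + ρ) (by omega) (by omega)
      rw [ht, hmul k (s + ρ) (by omega), a] at hb
      exact absurd hb (by decide)
    refine ⟨s + k * p, n, by omega, hn, by omega, by omega, ?_⟩
    intro q hq1 hq2
    obtain ⟨d, hd⟩ := Nat.exists_eq_add_of_le hq1
    have a := hrun (s + d) (by omega) (by omega)
    rw [hd, show s + k * p + d = s + d + k * p by omega, hmul k (s + d) (by omega)]
    exact a)
  linarith

end Pool.Agent.R30B.H60
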