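import Pool.Agent.R30B.Stmts

/-!
# Squad R30B (MP_3953f1_lc), rows PAT, AGR: stripes and agreement
-/

set_option autoImplicit false

namespace Pool.Agent.R30B.H60

open Pool.Agent.R30B

theorem dia_shift {D : ℕ → ℕ → Bool} (hD : Dia D) (a b : ℕ) :
    Dia (fun t k => D (a + t) (b + k)) := by
  intro t k
  exact hD (a + t) (b + k)

/-- row PAT -/
theorem pat (hA : AbsStmt) : PatStmt := by
  intro D hD n j hj hn h0
  have key : ∀ j, 7 * j + 2 ≤ n →
      (∀ t, 9 * j ≤ t → t + 1 ≤ n + 2 * j → D t (2 * j) = true) ∧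
      (1 ≤ j → ∀ t, 9 * j ≤ t → t + 2 ≤ n + 2 * j → D t (2 * j - 1) = false) := by
    intro j
    induction j with
    | zero =>
      intro _
      exact ⟨fun t _ h2 => h0 t (by omega), fun h => absurd h (by omega)⟩
    | succ j ih =>
      intro hn
      have hc := (ih (by omega)).1
      have ha := hA _ (dia_shift hD (9 * j) (2 * j)) (fun t ht => hc (9 * j + t) (by omega)
        (by omega))
      -- persistence
      have hp : ∀ d, 9 * j + 9 + d ≤ n + 2 * j →
          D (9 * j + 9 + d) (2 * j + 1) = false ∧ D (9 * j + 9 + d) (2 * j + 2) = true := by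
        intro d
        induction d with
        | zero => intro _; exact ha
        | succ d ihd =>
          intro hd
          obtain ⟨i1, i2⟩ := ihd (by omega)
          have i0 := hc (9 * j + 9 + d) (by omega) (by omega)
          have e1 := hD (9 * j + 9 + d) (2 * j)
          have e2 := hD (9 * j + 9 + d) (2 * j + 1)
          rw [i0, i1, i2] at e1
          rw [i1] at e2
          rw [show 2 * j + 1 + 1 = 2 * j + 2 from rfl, i2] at e2
          exact ⟨e1, by rw [show 9 * j + 9 + (d + 1) = 9 * j + 9 + d + 1 from rfl, e2]; rfl⟩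
      have hp' : ∀ t, 9 * (j + 1) ≤ t → t ≤ n + 2 * j →
          D t (2 * j + 1) = false ∧ D t (2 * j + 2) = true := by
        intro t h1 h2
        obtain ⟨d, rfl⟩ := Nat.exists_eq_add_of_le h1
        have := hp d (by omega)
        rw [show 9 * (j + 1) + d = 9 * j + 9 + d by ring]
        exact this
      refine ⟨?_, ?_⟩
      · intro t h1 h2
        rcases Nat.lt_or_ge (n + 2 * j) t with h3 | h3
        · obtain ⟨t', rfl⟩ : ∃ t', t = t' + 1 := ⟨t - 1, by omega⟩
          obtain ⟨i1, i2⟩ := hp' t' (by omega) (by omega)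
          have e2 := hD t' (2 * j + 1)
          rw [i1, show 2 * j + 1 + 1 = 2 * j + 2 from rfl, i2] at e2
          rw [show 2 * (j + 1) = 2 * j + 2 by ring, e2]
          rfl
        · rw [show 2 * (j + 1) = 2 * j + 2 by ring]
          exact (hp' t h1 h3).2
      · intro _ t h1 h2
        rw [show 2 * (j + 1) - 1 = 2 * j + 1 by omega]
        exact (hp' t h1 (by omega)).1
  exact ⟨(key j hn).2 hj, (key j hn).1⟩

/-- row AGR -/
theorem agr (hP : PatStmt) : AgrStmt := by
  intro D D' hD hD' n j E hj hn h1 h1' h0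
  -- the pattern region
  have hpat : ∀ k t, 1 ≤ k → k ≤ 2 * j → 9 * ((k + 1) / 2) ≤ t → t + 1 ≤ n + k →
      D t k = D' t k ∧ (k % 2 = 0 → D t k = true ∧ D' t k = true) := by
    intro k t hk1 hk2 ht1 ht2
    rcases Nat.mod_two_eq_zero_or_one k with hk | hk
    · obtain ⟨m, rfl⟩ : ∃ m, k = 2 * m := ⟨k / 2, by omega⟩
      have a := (hP D hD n m (by omega) (by omega) h1).2 t (by omega) (by omega)
      have b := (hP D' hD' n m (by omega) (by omega) h1').2 t (by omega) (by omega)
      exact ⟨by rw [a, b], fun _ => ⟨a, b⟩⟩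
    · obtain ⟨m, rfl⟩ : ∃ m, k = 2 * m - 1 := ⟨(k + 1) / 2, by omega⟩
      have a := (hP D hD n m (by omega) (by omega) h1).1 t (by omega) (by omega)
      have b := (hP D' hD' n m (by omega) (by omega) h1').1 t (by omega) (by omega)
      exact ⟨by rw [a, b], fun h => absurd h (by omega)⟩
  have key : ∀ t, t ≤ E → ∀ k, 1 ≤ k → k ≤ 2 * j → 9 * ((k + 1) / 2) ≤ t →
      t + k ≤ n + 4 * j → D t k = D' t k := by
    intro t
    induction t with
    | zero => intro _ k hk1 hk2 ht; omega
    | succ t ih =>
      intro hE k hk1 hk2 ht1 ht2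
      rcases Nat.lt_or_ge (t + 1) (n + k) with h3 | h3
      · exact (hpat k (t + 1) hk1 hk2 ht1 (by omega)).1
      · obtain ⟨q, rfl⟩ : ∃ q, k = q + 1 := ⟨k - 1, by omega⟩
        have hq : D t q = D' t q := by
          rcases Nat.eq_zero_or_pos q with hq0 | hq0
          · subst hq0
            exact h0 t (by omega)
          · exact ih (by omega) q hq0 (by omega) (by omega) (by omega)
        have hq1 : D t (q + 1) = D' t (q + 1) :=
          ih (by omega) (q + 1) hk1 hk2 (by omega) (by omega)
        rw [hD t q, hD' t q, hq, hq1]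
        by_cases hc : (q + 1) % 2 = 0 ∧ t + 1 = n + (q + 1)
        · have b := (hpat (q + 1) t hk1 hk2 (by omega) (by omega)).2 hc.1
          rw [b.2]
          simp
        · have hq2 : D t (q + 2) = D' t (q + 2) := by
            refine ih (by omega) (q + 2) (by omega) ?_ ?_ (by omega)
            · omega
            · omega
          rw [hq2]
  intro t ht1 ht2 ht3
  exact key t ht2 1 le_rfl (by omega) (by omega) ht3

end Pool.Agent.R30B.H60
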