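import Pool.Agent.R30B.Stmts

/-!
# Squad R30B (MP_3953f1_lc), row ABS: nine ones of the driver force `(0, 1)`
-/

set_option autoImplicit false

namespace Pool.Agent.R30B.H60

open Pool.Agent.R30B

/-- code of a state of the columns `1, ..., 5` -/
def cod (a b c d e : Bool) : ℕ :=
  a.toNat + 2 * b.toNat + 4 * c.toNat + 8 * d.toNat + 16 * e.toNat

/-- code of the columns `1, ..., 5` of a diagram -/
def st (D : ℕ → ℕ → Bool) (t : ℕ) : ℕ := cod (D t 1) (D t 2) (D t 3) (D t 4) (D t 5)

/-- codes of the sets of states which are possible after `n` steps -/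
def msk : ℕ → ℕ
  | 0 => 4294967295
  | 1 => 4158125527
  | 2 => 3889685975
  | 3 => 3889685847
  | 4 => 3872908375
  | 5 => 3336029271
  | 6 => 3334980679
  | 7 => 1179075655
  | 8 => 1179010118
  | _ => 1145324612

theorem msk_zero : ∀ a b c d e : Bool, (msk 0).testBit (cod a b c d e) = true := by decide

theorem msk_step : ∀ n < 9, ∀ a b c d e f : Bool, (msk n).testBit (cod a b c d e) = true →
    (msk (n + 1)).testBit (cod (Bool.xor true (a || b)) (Bool.xor a (b || c))
      (Bool.xor b (c || d)) (Bool.xor c (d || e)) (Bool.xor d (e || f))) = true := by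
  decide

theorem msk_nine : ∀ a b c d e : Bool, (msk 9).testBit (cod a b c d e) = true →
    a = false ∧ b = true := by
  decide

/-- row ABS -/
theorem abs : AbsStmt := by
  intro D hD h
  have key : ∀ n, n ≤ 9 → (msk n).testBit (st D n) = true := by
    intro n
    induction n with
    | zero =>
      intro _
      exact msk_zero _ _ _ _ _
    | succ n ih =>
      intro hn
      have h1 := msk_step n (by omega) _ _ _ _ _ (D n 6) (ih (by omega))
      have e1 := hD n 0
      have e2 := hD n 1
      have e3 := hD n 2
      have e4 := hD n 3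
      have e5 := hD n 4
      rw [h n (by omega)] at e1
      simp only [zero_add, Nat.reduceAdd] at e1 e2 e3 e4 e5
      unfold st
      rw [e1, e2, e3, e4, e5]
      exact h1
  exact msk_nine _ _ _ _ _ (key 9 le_rfl)

end Pool.Agent.R30B.H60
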