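import Pool.Agent.R30B.Stmts

/-!
# Squad R30B (MP_3953f1_lc): rigid words

A certificate (rank function on the states of the next `d` columns) shows that the right neighbour
of a periodic column is eventually periodic at the zeros of that column.
-/

set_option autoImplicit false

namespace Pool.Agent.R30B.H60

open Pool.Agent.R30B Pool.Agent.H21R30

/-- code of `d` columns -/
def cd : ℕ → (ℕ → Bool) → ℕ
  | 0, _ => 0
  | d + 1, x => (x 0).toNat + 2 * cd d (fun k => x (k + 1))

theorem cd_lt (d : ℕ) (x : ℕ → Bool) : cd d x < 2 ^ d := by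
  induction d generalizing x with
  | zero => simp [cd]
  | succ d ih =>
    have h := ih (fun k => x (k + 1))
    have h2 : (x 0).toNat ≤ 1 := Bool.toNat_le _
    rw [cd, pow_succ]
    omega

theorem cd_bit (d : ℕ) (x : ℕ → Bool) (k : ℕ) :
    (cd d x).testBit k = (decide (k < d) && x k) := by
  induction d generalizing x k with
  | zero => simp [cd]
  | succ d ih =>
    cases k with
    | zero =>
      rw [cd, Nat.testBit_zero]
      cases x 0 <;> simp
    | succ k =>
      have e : ((x 0).toNat + 2 * cd d (fun k => x (k + 1))) / 2 = cd d (fun k => x (k + 1)) := by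
        have h2 : (x 0).toNat ≤ 1 := Bool.toNat_le _
        omega
      rw [cd, Nat.testBit_succ, e, ih]
      simp

/-- one step for the columns `1, ..., d` -/
def nxd (d u s b : ℕ) : ℕ := ((2 * s + u) % 2 ^ d) ^^^ (s ||| (s / 2 + 2 ^ (d - 1) * b))

theorem cd_step (d : ℕ) (u : Bool) (x y : ℕ → Bool) (h0 : y 0 = Bool.xor u (x 0 || x 1))
    (h : ∀ k, y (k + 1) = Bool.xor (x k) (x (k + 1) || x (k + 2))) :
    cd (d + 1) y = nxd (d + 1) u.toNat (cd (d + 1) x) (x (d + 1)).toNat := by
  apply Nat.eq_of_testBit_eq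
  intro k
  unfold nxd
  rw [Nat.testBit_xor, Nat.testBit_or, Nat.testBit_mod_two_pow, cd_bit, cd_bit]
  have hs : (cd (d + 1) x) / 2 = cd d (fun k => x (k + 1)) := by
    rw [cd]
    have h2 : (x 0).toNat ≤ 1 := Bool.toNat_le _
    omega
  have hr : ((cd (d + 1) x) / 2 + 2 ^ (d + 1 - 1) * (x (d + 1)).toNat).testBit k =
      (decide (k < d + 1) && x (k + 1)) := by
    rw [hs, Nat.add_sub_cancel, add_comm, Nat.testBit_two_pow_mul_add _ (cd_lt _ _)]
    split_ifs with hk
    · rw [cd_bit]
      have h1 : k < d + 1 := by omega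
      simp [hk, h1]
    · rcases Nat.lt_or_ge k (d + 1) with h1 | h1
      · have h2 : k = d := by omega
        subst h2
        simp only [Nat.sub_self, Nat.testBit_zero]
        cases x (k + 1) <;> simp
      · have h2 : ¬ k < d + 1 := by omega
        obtain ⟨q, hq⟩ : ∃ q, k - d = q + 1 := ⟨k - d - 1, by omega⟩
        rw [hq, Nat.testBit_succ]
        have : (x (d + 1)).toNat / 2 = 0 := by
          have h2 : (x (d + 1)).toNat ≤ 1 := Bool.toNat_le _
          omega
        rw [this]
        simp [h2]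
  rw [hr]
  cases k with
  | zero =>
    rw [h0]
    have h3 : (2 * cd (d + 1) x + u.toNat).testBit 0 = u := by
      rw [Nat.testBit_zero]
      cases u <;> simp
    rw [h3]
    simp
  | succ k =>
    rw [h]
    have h3 : (2 * cd (d + 1) x + u.toNat).testBit (k + 1) = (decide (k < d + 1) && x k) := by
      have e : (2 * cd (d + 1) x + u.toNat) / 2 = cd (d + 1) x := by
        have h2 : u.toNat ≤ 1 := Bool.toNat_le _
        omega
      rw [Nat.testBit_succ, e, cd_bit]
    rw [h3]
    by_cases hk : k + 1 < d + 1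
    · have h4 : k < d + 1 := by omega
      simp [hk, h4]
    · simp [hk]

/-- certificate: the rank `r` of the states does not increase, and as long as it is constant
column `1` is a function `f` of rank and phase at the zeros of the driver `w` -/
def Cert (p d : ℕ) (w : ℕ → ℕ) (r f : ℕ → ℕ → ℕ) : Prop :=
  ∀ φ < p, ∀ s < 2 ^ d, ∀ b < 2,
    r ((φ + 1) % p) (nxd d (w φ) s b) < r φ s ∨
      (r ((φ + 1) % p) (nxd d (w φ) s b) = r φ s ∧
        (w ((φ + 1) % p) = 1 ∨ nxd d (w φ) s b % 2 = f (r φ s) ((φ + 1) % p)))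

theorem cert_per {p d : ℕ} {w : ℕ → ℕ} {r f : ℕ → ℕ → ℕ} (hp : 0 < p)
    (hC : Cert p (d + 1) w r f) {D : ℕ → ℕ → Bool} (hD : Dia D)
    (h0 : ∀ t, (D t 0).toNat = w (t % p)) :
    ∃ N, ∀ t, N ≤ t → D t 0 = false → D (t + p) 1 = D t 1 := by
  have hstep : ∀ t, cd (d + 1) (fun k => D (t + 1) (k + 1)) =
      nxd (d + 1) (w (t % p)) (cd (d + 1) (fun k => D t (k + 1))) (D t (d + 2)).toNat := by
    intro t
    rw [← h0 t]
    exact cd_step d (D t 0) (fun k => D t (k + 1)) (fun k => D (t + 1) (k + 1)) (hD t 0)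
      (fun k => hD t (k + 1))
  have hmod : ∀ t, (t + 1) % p = (t % p + 1) % p := by
    intro t
    rw [Nat.mod_add_mod]
  set R : ℕ → ℕ := fun t => r (t % p) (cd (d + 1) (fun k => D t (k + 1))) with hR
  have hcert : ∀ t, R (t + 1) < R t ∨ (R (t + 1) = R t ∧
      (w ((t + 1) % p) = 1 ∨ cd (d + 1) (fun k => D (t + 1) (k + 1)) % 2 =
        f (R t) ((t + 1) % p))) := by
    intro t
    have h := hC (t % p) (Nat.mod_lt _ hp) (cd (d + 1) (fun k => D t (k + 1))) (cd_lt _ _)
      (D t (d + 2)).toNat (Bool.toNat_lt _)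
    rw [← hstep, ← hmod] at h
    exact h
  have hanti : ∀ t, R (t + 1) ≤ R t := by
    intro t
    rcases hcert t with h | h
    · exact h.le
    · exact h.1.le
  -- the rank is eventually constant
  obtain ⟨N, hN⟩ : ∃ N, ∀ t, N ≤ t → R t = R N := by
    have hanti' : ∀ a b, a ≤ b → R b ≤ R a := by
      intro a b hab
      induction b, hab using Nat.le_induction with
      | base => exact le_rfl
      | succ b _ ih => exact (hanti b).trans ih
    classical
    have hne : ∃ v, ∃ t, R t = v := ⟨R 0, 0, rfl⟩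
    obtain ⟨N, hN⟩ := Nat.find_spec hne
    refine ⟨N, fun t ht => ?_⟩
    have h1 := hanti' N t ht
    have h2 : Nat.find hne ≤ R t := Nat.find_min' hne ⟨t, rfl⟩
    omega
  have hval : ∀ t, N + 1 ≤ t → D t 0 = false → (D t 1).toNat = f (R N) (t % p) := by
    intro t ht hb
    obtain ⟨t', rfl⟩ : ∃ t', t = t' + 1 := ⟨t - 1, by omega⟩
    have e1 := hN t' (by omega)
    have e2 := hN (t' + 1) (by omega)
    rcases hcert t' with h | ⟨_, h | h⟩
    · omega
    · have := h0 (t' + 1)
      rw [h, hb] at this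
      exact absurd this (by decide)
    · rw [e1] at h
      rw [← h, cd]
      have h2 : (D (t' + 1) (0 + 1)).toNat ≤ 1 := Bool.toNat_le _
      simp only [zero_add] at h2 ⊢
      omega
  refine ⟨N + 1, fun t ht hb => ?_⟩
  have e1 := hval t ht hb
  have hb' : D (t + p) 0 = false := by
    have a := h0 (t + p)
    rw [Nat.add_mod_right, ← h0 t, hb] at a
    cases hh : D (t + p) 0 with
    | false => rfl
    | true =>
      rw [hh] at a
      exact absurd a (by decide)
  have e2 := hval (t + p) (by omega) hb'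
  rw [Nat.add_mod_right, ← e1] at e2
  have inj : ∀ x y : Bool, x.toNat = y.toNat → x = y := by decide
  exact inj _ _ e2

end Pool.Agent.R30B.H60
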