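import Pool.Agent.Helper60_R30B.TAB

/-!
# Squad R30B (MP_3953f1_lc): rigid words are not tails of a column
-/

set_option autoImplicit false

namespace Pool.Agent.R30B.H60

open Pool.Agent.R30B Pool.Agent.H21R30

/-- the right half plane of a Rule 30 diagram -/
theorem dia_cell' (c : ℤ → Bool) (i : ℤ) (s : ℕ) :
    Dia (fun t k => cell c (s + t) (i + (k : ℕ))) := by
  intro t k
  have e := cell_succ c (s + t) (i + ((k + 1 : ℕ) : ℤ))
  have e1 : i + ((k + 1 : ℕ) : ℤ) - 1 = i + (k : ℕ) := by push_cast; ring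
  have e2 : i + ((k + 1 : ℕ) : ℤ) + 1 = i + ((k + 2 : ℕ) : ℤ) := by push_cast; ring
  rw [e1, e2] at e
  exact e

/-- A periodic column whose right neighbour is periodic at its zeros: impossible. -/
theorem fin (c : ℤ → Bool) (l : ℤ) (h0 : ∀ i, i < l → c i = false) (h1 : c l = true) (i : ℤ)
    (p N : ℕ) (hp : 0 < p) (hper : ∀ t, N ≤ t → cell c (t + p) i = cell c t i)
    (hz : ∀ t, N ≤ t → cell c t i = false → cell c (t + p) (i + 1) = cell c t (i + 1)) : False := by
  set T : ℕ := N + (l - i).natAbs + 2 with hT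
  obtain ⟨M, hM⟩ : ∃ M : ℕ, i - 1 - l + 2 * T + p < M :=
    ⟨(i - 1 - l + 2 * T + p).natAbs + 1, by omega⟩
  have := adjacent c l h0 h1 (i - 1) T p M hp (by omega) (by
    intro t ht _
    have e : i - 1 + 1 = i := by ring
    have hi := hper t (by omega)
    have hi1 := hper (t + 1) (by omega)
    rw [e]
    refine ⟨?_, hi⟩
    rw [cell_left, cell_left, hi, show t + p + 1 = t + 1 + p by omega, hi1]
    cases hb : cell c t i with
    | true => rfl
    | false => rw [hz t (by omega) hb])
  linarith

/-- A word with a certificate is not the tail of a column. -/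
theorem no_tail {p d : ℕ} {w : ℕ → ℕ} {r f : ℕ → ℕ → ℕ} (hp : 0 < p)
    (hC : Cert p (d + 1) w r f) (c : ℤ → Bool) (l : ℤ) (h0 : ∀ i, i < l → c i = false)
    (h1 : c l = true) (i : ℤ) (N φ : ℕ)
    (h : ∀ t, N ≤ t → (cell c t i).toNat = w ((t + φ) % p)) : False := by
  have inj : ∀ x y : Bool, x.toNat = y.toNat → x = y := by decide
  obtain ⟨N', hN', hφ⟩ : ∃ N', N ≤ N' ∧ (N' + φ) % p = 0 := by
    refine ⟨p * (N + φ) - φ, ?_, ?_⟩
    · have : N + φ ≤ p * (N + φ) := Nat.le_mul_of_pos_left _ hp
      omega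
    · have : N + φ ≤ p * (N + φ) := Nat.le_mul_of_pos_left _ hp
      rw [Nat.sub_add_cancel (by omega)]
      exact Nat.mul_mod_right _ _
  obtain ⟨N₁, hN₁⟩ := cert_per hp hC (dia_cell' c i N') (by
    intro t
    have a := h (N' + t) (by omega)
    have e : (N' + t + φ) % p = t % p := by
      rw [show N' + t + φ = (N' + φ) + t by ring, Nat.add_mod, hφ, zero_add, Nat.mod_mod]
    rw [e] at a
    simpa using a)
  refine fin c l h0 h1 i p (N' + N₁) hp ?_ ?_
  · intro t ht
    apply inj
    rw [h (t + p) (by omega), h t (by omega), show t + p + φ = t + φ + p by ring,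
      Nat.add_mod_right]
  · intro t ht hb
    obtain ⟨q, hq⟩ := Nat.exists_eq_add_of_le ht
    have a := hN₁ (N₁ + q) (by omega) (by
      have e : N' + (N₁ + q) = t := by omega
      rw [e]
      simpa using hb)
    have e1 : N' + (N₁ + q + p) = t + p := by omega
    have e2 : N' + (N₁ + q) = t := by omega
    simp only [e1, e2, Nat.cast_one] at a
    exact a

/-- fourteen words of length `8, 10, 11, 12` -/
def words : List (List Bool) := [w0, w1, w2, w3, w4, w5, w6, w7, w8, w9, w10, w11, w12, w13]

/-- no word of the list is the tail of a column -/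
theorem no_word (c : ℤ → Bool) (l : ℤ) (h0 : ∀ i, i < l → c i = false) (h1 : c l = true)
    (i : ℤ) (w : List Bool) (hw : w ∈ words) (N φ : ℕ) :
    ¬ ∀ t, N ≤ t → cell c t i = w.getD ((t + φ) % w.length) false := by
  intro h
  have h' : ∀ t, N ≤ t → (cell c t i).toNat = lt w ((t + φ) % w.length) := by
    intro t ht
    rw [h t ht]
    rfl
  simp only [words, List.mem_cons, List.not_mem_nil, or_false] at hw
  rcases hw with rfl | rfl | rfl | rfl | rfl | rfl | rfl | rfl | rfl | rfl | rfl | rfl | rfl | rfl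
  · exact no_tail (by decide) cert0 c l h0 h1 i N φ h'
  · exact no_tail (by decide) cert1 c l h0 h1 i N φ h'
  · exact no_tail (by decide) cert2 c l h0 h1 i N φ h'
  · exact no_tail (by decide) cert3 c l h0 h1 i N φ h'
  · exact no_tail (by decide) cert4 c l h0 h1 i N φ h'
  · exact no_tail (by decide) cert5 c l h0 h1 i N φ h'
  · exact no_tail (by decide) cert6 c l h0 h1 i N φ h'
  · exact no_tail (by decide) cert7 c l h0 h1 i N φ h'
  · exact no_tail (by decide) cert8 c l h0 h1 i N φ h'
  · exact no_tail (by decide) cert9 c l h0 h1 i N φ h'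
  · exact no_tail (by decide) cert10 c l h0 h1 i N φ h'
  · exact no_tail (by decide) cert11 c l h0 h1 i N φ h'
  · exact no_tail (by decide) cert12 c l h0 h1 i N φ h'
  · exact no_tail (by decide) cert13 c l h0 h1 i N φ h'

end Pool.Agent.R30B.H60
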